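import Pool.Agent.H.MP_0e7155_gt.Bern

set_option autoImplicit false

/-!
# A failing set contains a small closed separator

If the complement of `C` is disconnected, then already a closed subset of `C` with fewer than
continuum many points has a disconnected complement.
-/

open Set Topology Cardinal

namespace Pool.Agent.Results.MP_0e7155_gt.SmallSeparator

theorem result {X : Type*} [MetricSpace X] [TopologicalSpace.SeparableSpace X] [ConnectedSpace X]
    (cip : ∀ A B : Set X, IsPreconnected A → IsPreconnected B → IsPreconnected (A ∩ B))
    {C : Set X} (hC : ¬ IsPreconnected Cᶜ) :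
    ∃ S ⊆ C, IsClosed S ∧ #S < 𝔠 ∧ ¬ IsPreconnected Sᶜ := by
  have : SecondCountableTopology X := UniformSpace.secondCountable_of_separable X
  have hsep : H.MP_0e7155_gt.Sep C := by
    by_contra h
    exact hC (H.MP_0e7155_gt.preconnected_compl_of_not_sep h)
  obtain ⟨U, h1, h2, h3, h4, h5⟩ := hsep.exists_small cip
  exact ⟨frontier U, h4, isClosed_frontier, h5,
    H.MP_0e7155_gt.not_preconnected_compl_frontier h1 h2 h3⟩

end Pool.Agent.Results.MP_0e7155_gt.SmallSeparator
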